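import Pool.Agent.Lib.helper11.ETRTens

namespace Pool.Agent.Results.MP_acf5a6_lc.TSV

open Pool.Agent.Cx Finset

/-- `σ` is a singular value of the tensor `T` -/
def IsSV (T : List (List (List Rq))) (σ : ℝ) : Prop :=
  ∃ x y z : Fin T.length → ℝ, ∑ i, x i ^ 2 = 1 ∧ ∑ i, y i ^ 2 = 1 ∧ ∑ i, z i ^ 2 = 1 ∧
    (∀ i : Fin T.length, ∑ j : Fin T.length, ∑ k : Fin T.length, tent T i j k * y j * z k = σ * x i) ∧
    (∀ j : Fin T.length, ∑ i : Fin T.length, ∑ k : Fin T.length, tent T i j k * x i * z k = σ * y j) ∧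
    ∀ k : Fin T.length, ∑ i : Fin T.length, ∑ j : Fin T.length, tent T i j k * x i * y j = σ * z k

theorem result : ERHard (Lang fun p : List (List (List Rq)) × Rq =>
    Cube p.1 ∧ 0 < p.2.val ∧ IsSV p.1 p.2.val) := by
  obtain ⟨g, hg, h⟩ := rh_bam
  refine RH.erHard ⟨fun s => tens 0 (g s), (tens_pt 0).comp hg, fun s => ?_⟩
  have e : (tens 0 (g s)).1.length = 2 * nn (g s) * (2 * nn (g s)) := tens0_len _ _ _ _ _
  have e' : (tens 0 (g s)).2.val = lam (g s) := by simp [tens, rq_val]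
  simp only [IsSV, e']
  constructor
  · intro hs
    obtain ⟨x, z, h1, h2, -, h3, h4, h5⟩ := tens_complete _ ((h s).1 hs)
    rw [← e] at h1 h2 h3 h4 h5
    simp only [← Fin.sum_univ_eq_sum_range] at h1 h2 h3 h4 h5
    exact ⟨tens0_cube _ _ _ _ _, by unfold lam; positivity, fun i => x i, fun i => x i, fun i => z i,
      h1, h1, h2, fun i => h4 i i.2, fun i => h5 i i.2, fun i => h3 i i.2⟩
  · rintro ⟨-, -, x, y, z, h1, h2, h3, -, -, h4⟩
    refine (h s).2 (tens_sound 0 _ zero_le_one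
      (x := fun i => if h : i < _ then x ⟨i, h⟩ else 0) (y := fun i => if h : i < _ then y ⟨i, h⟩ else 0)
      (z := fun i => if h : i < _ then z ⟨i, h⟩ else 0) ?_ ?_ ?_ ?_) <;> rw [← e] <;>
      simp only [← Fin.sum_univ_eq_sum_range, Fin.is_lt, dif_pos, Fin.eta, h1, h2, h3, h4]
    simp [mul_assoc, ← sq, ← mul_sum, h3]

end Pool.Agent.Results.MP_acf5a6_lc.TSV
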